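import Pool.Agent.Helper61.PV.St

/-! Project PV (MP_d466de_nt): module Tra, translates of boxes. -/

set_option autoImplicit false

namespace Pool.Agent.Helper7.PV

open Pool.Agent.Helper61.PV Finset

theorem mem_Bx {d : ℕ} (A : Fin (d + 1) → ℤ) (h : Fin (d + 1) → ℕ) (g : Fin (d + 1) → ℤ) :
    g ∈ Bx A h ↔ ∀ i, A i ≤ g i ∧ g i < A i + h i := by
  simp [Bx, Fintype.mem_piFinset]

theorem hTra : StTra := by
  intro d R A b h G hG hb
  constructor
  · have e : ∑ g ∈ Bx A h, G g = ∑ a ∈ (Bx A h).image (fun g => g - b), G (a + b) := by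
      rw [sum_image]
      · refine sum_congr rfl fun g _ => ?_
        rw [sub_add_cancel]
      · intro x _ y _ hxy
        exact sub_left_injective hxy
    rw [e]
    refine sum_le_sum_of_subset_of_nonneg ?_ (fun a _ _ => hG _)
    intro a ha
    rw [mem_image] at ha
    obtain ⟨g, hg, rfl⟩ := ha
    rw [mem_Bx] at hg ⊢
    intro i
    have h1 := hg i
    have h2 := abs_le.1 (hb i)
    simp only [Pi.sub_apply]
    push_cast
    omega
  · intro hR
    have e : ∑ a ∈ Bx (fun i => A i + R) (fun i => h i - 2 * R), G (a + b) =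
        ∑ g ∈ (Bx (fun i => A i + R) (fun i => h i - 2 * R)).image (fun a => a + b), G g := by
      rw [sum_image]
      intro x _ y _ hxy
      exact add_left_injective b hxy
    rw [e]
    refine sum_le_sum_of_subset_of_nonneg ?_ (fun a _ _ => hG _)
    intro g hg
    rw [mem_image] at hg
    obtain ⟨a, ha, rfl⟩ := hg
    rw [mem_Bx] at ha ⊢
    intro i
    have h1 := ha i
    have h2 := abs_le.1 (hb i)
    have h3 := hR i
    simp only [Pi.add_apply]
    have h4 : ((h i - 2 * R : ℕ) : ℤ) = (h i : ℤ) - 2 * R := by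
      rw [Nat.cast_sub h3]
      push_cast
      ring
    rw [h4] at h1
    omega

end Pool.Agent.Helper7.PV
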