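import Pool.Agent.Helper92.PV.St

/-!
# PV module PAD: the determinant of the quadratic monomials at six points of one class is divisible by `P ^ 15`
-/

set_option autoImplicit false

noncomputable section

namespace Pool.Agent.Helper7.PV

open Pool.Agent.Helper92.PV Pool.Agent.Helper92.PU Pool.Agent.Helper92.PW

/-- truncation of a polynomial at a small argument -/
theorem pad_trunc (f : Polynomial ℤ) (P s : ℤ) (hs : P ∣ s) :
    P ^ 6 ∣ f.eval s - ∑ l : Fin 6, f.coeff l * s ^ (l : ℕ) := by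
  have h1 : f.eval s = ∑ l ∈ Finset.range (6 + (f.natDegree + 1)), f.coeff l * s ^ l :=
    Polynomial.eval_eq_sum_range' (by omega) s
  rw [h1, Finset.sum_range_add, ← Finset.sum_range (fun l => f.coeff l * s ^ l), add_sub_cancel_left]
  refine Finset.dvd_sum fun l _ => ?_
  rw [pow_add]
  exact Dvd.dvd.mul_left (Dvd.dvd.mul_right (pow_dvd_pow_of_dvd hs 6) _) _

/-- first coordinate of the `j`-th quadratic monomial -/
def pm1 : Fin 6 → Fin 3 := ![0, 0, 1, 0, 1, 2]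

/-- second coordinate of the `j`-th quadratic monomial -/
def pm2 : Fin 6 → Fin 3 := ![0, 1, 1, 2, 2, 2]

theorem ver_eq_vec (q : Pt) (j : Fin 6) : ver q j = vec q (pm1 j) * vec q (pm2 j) := by
  fin_cases j <;> simp [ver, vec, pm1, pm2, pow_two]

/-- **PAD** -/
theorem hPAD (h1 : StLPR) (h2 : StDTP) : StPAD := by
  intro P d G p hP hG hz hgrd hnz hpro
  obtain ⟨c, ψ, hψ⟩ := h1 P d G (p 0) hP hG (hz 0) hgrd (hnz 0)
  choose s hs hs6 using fun i => hψ (p i) (hz i) (hpro i) (hnz i)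
  refine h2 P _ (fun i l => vec (p i) c ^ 2 * s i ^ (l : ℕ))
    (fun l j => (ψ (pm1 j) * ψ (pm2 j)).coeff (l : ℕ)) ?_ ?_
  · intro i l
    exact Dvd.dvd.mul_left (pow_dvd_pow_of_dvd (hs i) l) _
  · intro i j
    have e1 : (P : ℤ) ^ 6 ∣ vec (p i) (pm1 j) - vec (p i) c * (ψ (pm1 j)).eval (s i) := hs6 i (pm1 j)
    have e2 : (P : ℤ) ^ 6 ∣ vec (p i) (pm2 j) - vec (p i) c * (ψ (pm2 j)).eval (s i) := hs6 i (pm2 j)
    have e3 : (P : ℤ) ^ 6 ∣ (ψ (pm1 j) * ψ (pm2 j)).eval (s i) -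
        ∑ l : Fin 6, (ψ (pm1 j) * ψ (pm2 j)).coeff l * s i ^ (l : ℕ) := pad_trunc _ _ _ (hs i)
    have e4 : Matrix.of (fun i j : Fin 6 => ver (p i) j) i j -
        ∑ l : Fin 6, vec (p i) c ^ 2 * s i ^ (l : ℕ) * (ψ (pm1 j) * ψ (pm2 j)).coeff (l : ℕ) =
        (vec (p i) (pm1 j) - vec (p i) c * (ψ (pm1 j)).eval (s i)) * vec (p i) (pm2 j) +
        vec (p i) c * (ψ (pm1 j)).eval (s i) * (vec (p i) (pm2 j) - vec (p i) c * (ψ (pm2 j)).eval (s i)) +
        vec (p i) c ^ 2 * ((ψ (pm1 j) * ψ (pm2 j)).eval (s i) -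
          ∑ l : Fin 6, (ψ (pm1 j) * ψ (pm2 j)).coeff l * s i ^ (l : ℕ)) := by
      have e5 : ∑ l : Fin 6, vec (p i) c ^ 2 * s i ^ (l : ℕ) * (ψ (pm1 j) * ψ (pm2 j)).coeff (l : ℕ) =
          vec (p i) c ^ 2 * ∑ l : Fin 6, (ψ (pm1 j) * ψ (pm2 j)).coeff l * s i ^ (l : ℕ) := by
        rw [Finset.mul_sum]
        exact Finset.sum_congr rfl fun l _ => by ring
      rw [e5, Matrix.of_apply, ver_eq_vec, Polynomial.eval_mul]
      ring
    rw [e4]
    exact dvd_add (dvd_add (Dvd.dvd.mul_right e1 _) (Dvd.dvd.mul_left e2 _)) (Dvd.dvd.mul_left e3 _)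

end Pool.Agent.Helper7.PV
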